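import Mathlib
import Pool.Agent.Lib.MP_37efd7_lc.Defs
import Pool.Agent.Lib.MP_37efd7_lc.PGDisc
import Pool.Agent.Lib.MP_37efd7_lc.SQFin

/-!
Two countable topologizable groups: one, in ZFC, without a sequential group topology of
intermediate sequential order, and one, under the continuum hypothesis, with such a topology.
-/

namespace Pool.Agent.Results.MP_37efd7_lc.CountableGroups

open Cardinal Ordinal Pool.Agent.Lib.MP_37efd7_lc

/-- In ZFC there is a countable topologizable group `G₂` such that every sequential Hausdorff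
group topology on `G₂` has sequential order at most `1` or equal to `ω₁`; so `G₂` admits no
sequential group topology of intermediate sequential order. If the continuum hypothesis holds,
there is a countable topologizable (abelian) group `G₁` with a sequential Hausdorff group topology
of sequential order `2`, so `G₁` does admit one of intermediate sequential order. -/
theorem result :
    (∃ (G₂ : Type) (_ : Group G₂), Countable G₂ ∧ Topologizable G₂ ∧
      (∀ t : TopologicalSpace G₂, IsTopologicalGroup G₂ → T2Space G₂ → IsSequential G₂ →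
        seqOrder G₂ ≤ 1 ∨ seqOrder G₂ = ω_ 1) ∧
      ¬ AdmitsIntermediate G₂) ∧
    ((ℵ_ 1 : Cardinal.{0}) = 𝔠 →
      ∃ (G₁ : Type) (_ : CommGroup G₁), Countable G₁ ∧ Topologizable G₁ ∧
        (∃ t : TopologicalSpace G₁, IsTopologicalGroup G₁ ∧ T2Space G₁ ∧ IsSequential G₁ ∧
          seqOrder G₁ = 2) ∧
        AdmitsIntermediate G₁) := by
  refine ⟨?_, fun CH => ?_⟩
  · obtain ⟨G, hG, hc, ht, h⟩ := Para.exists_countable_group
    refine ⟨G, hG, hc, ht, h, ?_⟩
    rintro ⟨t, h1, h2, h3, h4, h5⟩
    rcases h t h1 h2 h3 with h6 | h6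
    · exact absurd h4 (not_lt.2 h6)
    · exact absurd h6 h5.ne
  · obtain ⟨G, hG, t, hc, h1, h2, h3, h4, h5⟩ := Ctbl.exists_countable_order_two CH
    have h6 : (1 : Ordinal.{0}) < seqOrder G := by
      rw [h5]; exact one_lt_two
    have h7 : seqOrder G < ω_ 1 := by
      rw [h5]
      exact (Ordinal.natCast_lt_omega0 2).trans Ordinal.omega0_lt_omega_one
    exact ⟨G, hG, hc, ⟨t, h1, h2, h3⟩, ⟨t, h1, h2, h4, h5⟩, ⟨t, h1, h2, h4, h6, h7⟩⟩

end Pool.Agent.Results.MP_37efd7_lc.CountableGroups
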